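import Pool.Agent.KDS.StmtsB
import Pool.Agent.Helper98_SZT.CNT

/-!
# KDS, row HLF: a half of a generic point is generic (helper16)
-/

set_option autoImplicit false

namespace Pool.Agent.KDS.H16

open Polynomial H58Q Pool.Agent.SZT Pool.Agent.KDT
open Pool.Agent.SZT.H98 (sc_refl sc_symm sc_trans sc_mul sc_prin sc_mul_span)

/-! ### algebraic independence: exchange -/

theorem range_two {E : Type} (s p : E) : Set.range ![s, p] = {s, p} := by
  rw [Matrix.range_cons, Matrix.range_cons, Matrix.range_empty, Set.union_empty]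
  rfl

theorem ai_exchange {K E : Type} [Field K] [Field E] [Algebra K E] (s p s' p' : E)
    (h : AlgebraicIndependent K ![s', p'])
    (hs : IsAlgebraic (Algebra.adjoin K ({s, p} : Set E)) s')
    (hp : IsAlgebraic (Algebra.adjoin K ({s, p} : Set E)) p') :
    AlgebraicIndependent K ![s, p] := by
  have hr' : Set.range ![s', p'] = {s', p'} := range_two _ _
  have hr : Set.range ![s, p] = {s, p} := range_two _ _
  have hne : s' ≠ p' := by
    intro h0
    have h1 : (![s', p'] : Fin 2 → E) 0 = ![s', p'] 1 := h0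
    exact absurd (h.injective h1) (by decide)
  have hind : (AlgebraicIndependent.matroid K E).Indep {s', p'} := by
    rw [AlgebraicIndependent.matroid_indep_iff, ← hr']
    exact h.to_subtype_range
  have hsub : ({s', p'} : Set E) ⊆ (AlgebraicIndependent.matroid K E).closure {s, p} := by
    rw [AlgebraicIndependent.matroid_closure_eq]
    intro x hx
    rcases hx with rfl | rfl
    · exact hs
    · exact hp
  have h1 := hind.encard_le_eRk_of_subset hsub
  rw [Matroid.eRk_closure_eq, Set.encard_pair hne] at h1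
  have h3 := (AlgebraicIndependent.matroid K E).eRk_le_encard {s, p}
  have hsp : s ≠ p := by
    rintro rfl
    rw [Set.pair_eq_singleton] at h1
    rw [Set.pair_eq_singleton, Set.encard_singleton] at h3
    have := h1.trans h3
    exact absurd this (by decide)
  have h4 : ({s, p} : Set E).encard = 2 := Set.encard_pair hsp
  have h5 : (AlgebraicIndependent.matroid K E).Indep {s, p} := by
    rw [Matroid.indep_iff_eRk_eq_encard_of_finite (Set.toFinite _)]
    exact le_antisymm h3 (h4 ▸ h1)
  rw [AlgebraicIndependent.matroid_indep_iff] at h5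
  refine AlgebraicIndependent.of_subtype_range ?_ ?_
  · intro i j hij
    fin_cases i <;> fin_cases j
    · rfl
    · exact absurd hij hsp
    · exact absurd hij hsp.symm
    · rfl
  · rw [hr]
    exact h5

/-! ### the field generated by `s, p` -/

section alg

variable {K E : Type} [Field K] [Field E] [Algebra K E]

/-- evaluations stay in a subalgebra which contains the coefficients -/
theorem eval_mem {R : Type} [CommRing R] [Algebra R E] (S : Subalgebra R E) (P : E[X]) (x : E)
    (hP : ∀ n, P.coeff n ∈ S) (hx : x ∈ S) : P.eval x ∈ S := by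
  rw [eval_eq_sum_range]
  exact S.sum_mem fun n _ => S.mul_mem (hP n) (S.pow_mem hx n)

theorem kum_mem {f A B : E[X]} {R : Type} [CommRing R] [IsDomain R] [Algebra R E]
    (S : Subalgebra R E) (hS : ∀ x : E, x ∈ S ↔ IsAlgebraic R x) (hf : ∀ n, f.coeff n ∈ S)
    (hinv : ∀ x ∈ S, x⁻¹ ∈ S)
    (h2 : (2 : E) ≠ 0) (hM : Mum f A B) (hA2 : A.natDegree = 2) (hcop : IsCoprime A f)
    (hac : IsAlgClosed E) (hs : A.coeff 1 ∈ S) (hp : A.coeff 0 ∈ S) : ∀ l, kum f A B l ∈ S := by
  have hsq : ∀ x : E, x ^ 2 ∈ S → x ∈ S := by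
    intro x hx
    rw [hS] at hx ⊢
    exact hx.of_pow (by norm_num)
  have htwo : (2 : E) ∈ S := by
    have := S.natCast_mem 2
    rwa [Nat.cast_ofNat] at this
  -- roots
  obtain ⟨x₁, hx₁⟩ := IsAlgClosed.exists_root A (by
    rw [degree_eq_natDegree hM.monic.ne_zero, hA2]
    decide)
  obtain ⟨A1, hA1⟩ := dvd_iff_isRoot.2 hx₁
  have hA1m : A1.Monic := by
    have h3 : ((X - C x₁) * A1).Monic := hA1 ▸ hM.monic
    exact (monic_X_sub_C x₁).of_mul_monic_left h3
  have hA1d : A1.natDegree = 1 := by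
    have := natDegree_mul (X_sub_C_ne_zero x₁) hA1m.ne_zero
    rw [← hA1, hA2, natDegree_X_sub_C] at this
    omega
  obtain ⟨x₂, rfl⟩ : ∃ a, A1 = X - C a := by
    refine ⟨-A1.coeff 0, ?_⟩
    rw [C_neg, sub_neg_eq_add]
    exact hA1m.eq_X_add_C hA1d
  have hexp : A = X ^ 2 - C (x₁ + x₂) * X + C (x₁ * x₂) := by
    rw [hA1, C_add, C_mul]
    ring
  have hc1 : A.coeff 1 = -(x₁ + x₂) := by
    rw [hexp]
    simp [coeff_C]
  have hc0 : A.coeff 0 = x₁ * x₂ := by
    rw [hexp]
    simp
  have hroot : ∀ x : E, x = x₁ ∨ x = x₂ → x ∈ S := by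
    intro x hx
    have h3 : x ^ 2 + A.coeff 1 * x + A.coeff 0 = 0 := by
      rw [hc1, hc0]
      rcases hx with rfl | rfl <;> ring
    have h4 : 2 * x + A.coeff 1 ∈ S := by
      apply hsq
      have h5 : (2 * x + A.coeff 1) ^ 2 = (A.coeff 1) ^ 2 - 2 * (2 * A.coeff 0) := by
        linear_combination 4 * h3
      rw [h5]
      exact S.sub_mem (S.pow_mem hs 2) (S.mul_mem htwo (S.mul_mem htwo hp))
    have h6 : x = 2⁻¹ * ((2 * x + A.coeff 1) - A.coeff 1) := by
      field_simp
      ring
    rw [h6]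
    exact S.mul_mem (hinv _ htwo) (S.sub_mem h4 hs)
  have hx₁S := hroot x₁ (Or.inl rfl)
  have hx₂S := hroot x₂ (Or.inr rfl)
  -- the values of B
  have hBe : B = C (B.coeff 1) * X + C (B.coeff 0) := by
    apply eq_X_add_C_of_degree_le_one
    have h3 := hM.deg
    rw [degree_eq_natDegree hM.monic.ne_zero, hA2] at h3
    exact Order.le_of_lt_succ h3
  have hBev : ∀ x, B.eval x = B.coeff 1 * x + B.coeff 0 := by
    intro x
    conv_lhs => rw [hBe]
    simp
  have hval : ∀ x : E, x = x₁ ∨ x = x₂ → A.eval x = 0 := by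
    intro x hx
    rw [hA1]
    rcases hx with rfl | rfl <;> simp
  have hBsq : ∀ x : E, x = x₁ ∨ x = x₂ → (B.eval x) ^ 2 = f.eval x := by
    intro x hx
    obtain ⟨q, hq⟩ := hM.dvd
    have h3 := congrArg (Polynomial.eval x) hq
    rw [eval_sub, eval_pow, eval_mul, hval x hx, zero_mul] at h3
    exact sub_eq_zero.1 h3
  have hBS : ∀ x : E, x = x₁ ∨ x = x₂ → B.eval x ∈ S := by
    intro x hx
    apply hsq
    rw [hBsq x hx]
    exact eval_mem S f x hf (hroot x hx)
  have hb1 : B.coeff 1 ∈ S := by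
    by_cases hne : x₁ = x₂
    · subst hne
      have hder : 2 * B.eval x₁ * B.coeff 1 = (derivative f).eval x₁ := by
        obtain ⟨q, hq⟩ := hM.dvd
        have h3 := congrArg (fun P => (derivative P).eval x₁) hq
        simp only [derivative_sub, derivative_mul, derivative_pow, eval_sub, eval_mul, eval_add,
          eval_pow, hA1, derivative_X, derivative_C, eval_X, eval_C, eval_one] at h3
        have h4 : (derivative B).eval x₁ = B.coeff 1 := by
          conv_lhs => rw [hBe]
          simp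
        rw [h4] at h3
        simp at h3
        linear_combination h3
      have hB0 : B.eval x₁ ≠ 0 := by
        intro h0
        have h3 := hBsq x₁ (Or.inl rfl)
        rw [h0] at h3
        obtain ⟨u, v, huv⟩ := hcop
        have h5 := congrArg (Polynomial.eval x₁) huv
        rw [eval_add, eval_mul, eval_mul, hval x₁ (Or.inl rfl), ← h3, eval_one] at h5
        norm_num at h5
      have h5 : B.coeff 1 = (2 * B.eval x₁)⁻¹ * (derivative f).eval x₁ := by
        rw [← hder]
        field_simp
      rw [h5]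
      refine S.mul_mem (hinv _ (S.mul_mem htwo (hBS _ (Or.inl rfl)))) ?_
      refine eval_mem S _ _ ?_ hx₁S
      intro n
      rw [coeff_derivative]
      refine S.mul_mem (hf _) ?_
      have := S.natCast_mem (n + 1)
      rwa [Nat.cast_add, Nat.cast_one] at this
    · have h5 : B.coeff 1 = (x₁ - x₂)⁻¹ * (B.eval x₁ - B.eval x₂) := by
        rw [hBev, hBev]
        have h6 : x₁ - x₂ ≠ 0 := sub_ne_zero.2 hne
        field_simp
        ring
      rw [h5]
      exact S.mul_mem (hinv _ (S.sub_mem hx₁S hx₂S))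
        (S.sub_mem (hBS _ (Or.inl rfl)) (hBS _ (Or.inr rfl)))
  intro l
  have hs' : -A.coeff 1 ∈ S := S.neg_mem hs
  unfold kum
  fin_cases l
  · exact S.one_mem
  · exact hs'
  · exact hp
  · show (B.coeff 1) ^ 2 - (-A.coeff 1) ^ 3 + (-A.coeff 1) * A.coeff 0
      - f.coeff 4 * (-A.coeff 1) ^ 2 - f.coeff 3 * (-A.coeff 1) - f.coeff 2 ∈ S
    exact S.sub_mem (S.sub_mem (S.sub_mem (S.add_mem (S.sub_mem (S.pow_mem hb1 2)
      (S.pow_mem hs' 3)) (S.mul_mem hs' hp)) (S.mul_mem (hf 4) (S.pow_mem hs' 2)))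
      (S.mul_mem (hf 3) hs')) (hf 2)

theorem dup_mem {f : E[X]} {R : Type} [CommRing R] [Algebra R E] (S : Subalgebra R E)
    (hf : ∀ n, f.coeff n ∈ S) (u : Fin 4 → E) (hu : ∀ l, u l ∈ S) :
    ∀ l, dup f u l ∈ S := by
  have hnum : ∀ n : ℕ, (n : E) ∈ S := fun n => S.natCast_mem n
  intro l
  unfold dup
  fin_cases l
  · show dup0 f u ∈ S
    unfold dup0
    repeat' first
      | exact hf _
      | exact hu _
      | exact ofNat_mem S _
      | apply S.add_mem
      | apply S.sub_mem
      | apply S.mul_mem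
      | apply S.pow_mem
  · show dup1 f u ∈ S
    unfold dup1
    repeat' first
      | exact hf _
      | exact hu _
      | exact ofNat_mem S _
      | apply S.add_mem
      | apply S.sub_mem
      | apply S.mul_mem
      | apply S.pow_mem
  · show dup2 f u ∈ S
    unfold dup2
    repeat' first
      | exact hf _
      | exact hu _
      | exact ofNat_mem S _
      | apply S.add_mem
      | apply S.sub_mem
      | apply S.mul_mem
      | apply S.pow_mem
  · show dup3 f u ∈ S
    unfold dup3
    repeat' first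
      | exact hf _
      | exact hu _
      | exact ofNat_mem S _
      | apply S.add_mem
      | apply S.sub_mem
      | apply S.mul_mem
      | apply S.pow_mem

end alg

/-! ### classes -/

theorem MI_one {E : Type} [Field E] (g B : E[X]) : MI g 1 B = ⊤ := by
  rw [Ideal.eq_top_iff_one]
  exact Ideal.subset_span (by left; rfl)

theorem mi_ne {E : Type} [Field E] {P : E[X]} {g : E[X]} (h : P ≠ 0) : (⟨P, 0⟩ : Q E g) ≠ 0 := by
  intro h1
  exact h (congrArg QuadraticAlgebra.re h1)

theorem not_prin {E : Type} [Field E] (unq : UnqStatement) (g A B : E[X]) (h2 : (2 : E) ≠ 0)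
    (hsq : Squarefree g) (hdeg : g.natDegree = 5) (hM : Mum g A B) (hA2 : A.natDegree = 2) :
    ¬ (MI g A B).IsPrincipal := by
  rintro ⟨h, hh⟩
  have hh' : MI g A B = Ideal.span {h} := hh
  have h0 : h ≠ 0 := by
    rintro rfl
    have h3 : (⟨A, 0⟩ : Q E g) ∈ MI g A B := Ideal.subset_span (by left; rfl)
    rw [hh', Ideal.mem_span_singleton, zero_dvd_iff] at h3
    exact mi_ne hM.monic.ne_zero h3
  have hdom : IsDomain (Q E g) := isDomain (g := 2) (by rw [hdeg])
  have h1 : Mum g 1 0 := ⟨monic_one, by rw [degree_zero, degree_one]; exact WithBot.bot_lt_coe 0,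
    one_dvd _⟩
  have hsc : SameCl (MI g A B) (MI g 1 0) := by
    refine ⟨1, h, one_ne_zero, h0, ?_⟩
    rw [MI_one, hh', Ideal.span_singleton_one, Ideal.top_mul, Ideal.mul_top]
  have h4 := (unq E g A B 1 0 h2 hsq hdeg hM h1 (by omega) (by rw [natDegree_one]; omega) hsc).1
  rw [h4, natDegree_one] at hA2
  omega

theorem lin_sq {E : Type} [Field E] (mii : MiiStatement) (unq : UnqStatement) (pro : ProStatement)
    (g A B : E[X]) (h2 : (2 : E) ≠ 0) (hsq : Squarefree g) (hdeg : g.natDegree = 5)
    (hM : Mum g A B) (hA2 : A.natDegree = 2) (a b : E) (hm : Mum g (X - C a) (C b))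
    (hsc : SameCl (MI g A B) (MI g (X - C a) (C b) ^ 2)) : A = (X - C a) * (X - C a) := by
  have hdom : IsDomain (Q E g) := isDomain (g := 2) (by rw [hdeg])
  have hnp := not_prin unq g A B h2 hsq hdeg hM hA2
  by_cases hb : b = 0
  · exfalso
    apply hnp
    refine sc_prin hsc ?_
    have h1 := mii E g (X - C a) (C b) h2 hsq hm.dvd
    rw [hb, C_0, neg_zero] at h1
    rw [hb, C_0, pow_two, h1]
    exact ⟨_, rfl⟩
  · have hne : ¬ (X - C a = X - C a ∧ C b = - C b) := by
      rintro ⟨-, h3⟩
      rw [← C_neg] at h3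
      have h4 := C_injective h3
      have h5 : 2 * b = 0 := by linear_combination h4
      rcases mul_eq_zero.1 h5 with h6 | h6
      · exact h2 h6
      · exact hb h6
    obtain ⟨B'', hm'', -, -, h3⟩ := pro E g (X - C a) (C b) (X - C a) (C b) h2 hm hm
      (natDegree_X_sub_C a).le (natDegree_X_sub_C a).le hne
    rw [pow_two, h3] at hsc
    refine (unq E g A B _ B'' h2 hsq hdeg hM hm'' (by omega) ?_ hsc).1
    rw [natDegree_mul (X_sub_C_ne_zero a) (X_sub_C_ne_zero a), natDegree_X_sub_C]

theorem gnc_ne {K E : Type} [Field K] [Field E] [Algebra K E] {A : E[X]}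
    (h : Gnc K A) (a : E) : A ≠ (X - C a) * (X - C a) := by
  intro h1
  have hexp : A = X ^ 2 - C (a + a) * X + C (a * a) := by
    rw [h1, C_add, C_mul]
    ring
  have hc1 : A.coeff 1 = -(a + a) := by
    rw [hexp]
    simp [coeff_C]
  have hc0 : A.coeff 0 = a * a := by
    rw [hexp]
    simp
  have h3 := (algebraicIndependent_iff.1 h)
    ((MvPolynomial.X 0) ^ 2 - 4 * MvPolynomial.X 1 : MvPolynomial (Fin 2) K) (by
      simp only [map_sub, map_pow, map_mul, MvPolynomial.aeval_X, map_ofNat,
        Matrix.cons_val_zero, Matrix.cons_val_one]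
      rw [hc1, hc0]
      ring)
  have h4 := congrArg (MvPolynomial.eval ![(1 : K), 0]) h3
  simp at h4

theorem hlf (DPB : DpbStatement) (mii : MiiStatement) (_mik : MikStatement) (unq : UnqStatement)
    (pro : ProStatement) (bdk : BdkStatement) : HlfStatement := by
  intro K E _ _ _ _ _ f A' B' A B hmon hdeg hsqf hM' hA2' hG hM hA2 hsc
  have hφ : Function.Injective (algebraMap K E) := (algebraMap K E).injective
  have h2 : (2 : E) ≠ 0 := by
    have h : algebraMap K E 2 = 2 := map_ofNat _ 2
    rw [← h]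
    intro h0
    exact two_ne_zero (hφ (h0.trans (map_zero _).symm))
  obtain ⟨g, hg⟩ : ∃ g, g = f.map (algebraMap K E) := ⟨_, rfl⟩
  have gmon : g.Monic := by rw [hg]; exact hmon.map _
  have gdeg : g.natDegree = 5 := by rw [hg, natDegree_map, hdeg]
  have gsq : Squarefree g := by
    rw [hg]
    exact ((PerfectField.separable_iff_squarefree.2 hsqf).map).squarefree
  rw [← hg] at hM' hM hsc ⊢
  have hdom : IsDomain (Q E g) := isDomain (g := 2) (by rw [gdeg])
  have hnp := not_prin unq g A' B' h2 gsq gdeg hM' hA2'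
  have hlin : ∀ a b : E, Mum g (X - C a) (C b) →
      SameCl (MI g A' B') (MI g (X - C a) (C b) ^ 2) → False := fun a b hm h =>
    gnc_ne hG a (lin_sq mii unq pro g A' B' h2 gsq gdeg hM' hA2' a b hm h)
  have hgood : Good g A B := by
    by_contra hng
    rcases bdk E g A B h2 gsq hM hA2 hng with h1 | ⟨h1, h3⟩ | ⟨t, a, b, ht, hm, h3⟩
    · rcases Nat.lt_or_ge A.natDegree 1 with h4 | h4
      · have h5 : A = 1 := hM.monic.natDegree_eq_zero.1 (by omega)
        apply hnp
        refine sc_prin hsc ?_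
        rw [h5, MI_one, Ideal.top_pow]
        exact ⟨1, by rw [Ideal.submodule_span_eq, Ideal.span_singleton_one]⟩
      · have h5 : A.natDegree = 1 := by omega
        obtain ⟨a, ha⟩ : ∃ a, A = X - C a := by
          refine ⟨-A.coeff 0, ?_⟩
          rw [C_neg, sub_neg_eq_add]
          exact hM.monic.eq_X_add_C h5
        obtain ⟨b, hb⟩ : ∃ b, B = C b := by
          refine ⟨B.coeff 0, ?_⟩
          apply eq_C_of_degree_le_zero
          have h6 := hM.deg
          rw [degree_eq_natDegree hM.monic.ne_zero, h5] at h6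
          exact Order.le_of_lt_succ h6
        rw [ha, hb] at hM hsc
        exact hlin a b hM hsc
    · apply hnp
      refine sc_prin hsc ?_
      have h4 := mii E g A B h2 gsq hM.dvd
      rw [h3, neg_zero] at h4
      rw [h3, pow_two, h4]
      exact ⟨_, rfl⟩
    · refine hlin a b hm ?_
      have h4 := mii E g (X - C t) 0 h2 gsq (by
        have : (0 : E[X]) ^ 2 - g = - g := by ring
        rw [this]
        exact (dvd_neg).mpr (dvd_iff_isRoot.mpr ht))
      rw [neg_zero] at h4
      rw [← h3, mul_pow, pow_two (MI g (X - C t) 0), h4] at hsc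
      exact sc_trans hsc (sc_mul_span _ (mi_ne (X_sub_C_ne_zero t)))
  refine ⟨hgood, ?_⟩
  obtain ⟨m, V, -, -, -, hd0, hd⟩ := DPB E g A B A' B' h2 gmon gdeg gsq hgood hM' hA2' hsc
  -- the algebraic closure of `K(s, p)`
  unfold Gnc at hG ⊢
  obtain ⟨T, hT⟩ : ∃ T : Set E, T = {-A.coeff 1, A.coeff 0} := ⟨_, rfl⟩
  have hRd : IsDomain (Algebra.adjoin K T) := inferInstance
  obtain ⟨S, hSdef⟩ : ∃ S : Subalgebra (Algebra.adjoin K T) E,
      S = Subalgebra.algebraicClosure (Algebra.adjoin K T) E := ⟨_, rfl⟩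
  have hS : ∀ x : E, x ∈ S ↔ IsAlgebraic (Algebra.adjoin K T) x := by
    intro x
    rw [hSdef]
    exact Subalgebra.mem_algebraicClosure ..
  have hbase : ∀ x : E, x ∈ Algebra.adjoin K T → x ∈ S := by
    intro x hx
    exact S.algebraMap_mem (⟨x, hx⟩ : Algebra.adjoin K T)
  have hgS : ∀ n, g.coeff n ∈ S := by
    intro n
    apply hbase
    rw [hg, coeff_map]
    exact (Algebra.adjoin K T).algebraMap_mem _
  have hinv : ∀ x ∈ S, x⁻¹ ∈ S := by
    intro x hx
    rw [hS] at hx ⊢
    exact hx.inv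
  have hsS : A.coeff 1 ∈ S := by
    have h1 : -A.coeff 1 ∈ S := hbase _ (Algebra.subset_adjoin (by rw [hT]; left; rfl))
    have h3 := S.neg_mem h1
    rwa [neg_neg] at h3
  have hpS : A.coeff 0 ∈ S := hbase _ (Algebra.subset_adjoin (by rw [hT]; right; rfl))
  have hk := kum_mem S hS hgS hinv h2 hM hgood.two hgood.cop inferInstance hsS hpS
  have hdS := dup_mem S hgS (kum g A B) hk
  have hk' : ∀ l, kum g A' B' l ∈ S := by
    intro l
    have h1 : kum g A' B' l = (dup g (kum g A B) 0)⁻¹ * dup g (kum g A B) l := by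
      rw [hd l, ← mul_assoc, inv_mul_cancel₀ hd0, one_mul]
    rw [h1]
    exact S.mul_mem (hinv _ (hdS 0)) (hdS l)
  refine ai_exchange _ _ _ _ hG ?_ ?_
  · rw [← hT, ← hS]
    exact hk' 1
  · rw [← hT, ← hS]
    exact hk' 2

end Pool.Agent.KDS.H16
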